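import Pool.Agent.Y382.NCH.Stm

set_option autoImplicit false

namespace Pool.Agent.Y412.NCH

open Pool.Agent.Y382.NCH
open scoped commutatorElement

universe u

theorem t_TRA : Pool.Agent.Y382.NCH.S_TRA.{u} := by
  classical
  intro G _ a b r s ⟨θ, g, hg, hb⟩
  refine ⟨(Equiv.mulLeft r⁻¹).trans (θ.trans (Equiv.mulRight s)), r * g, ?_, ?_⟩
  · simp only [Equiv.trans_apply, Equiv.coe_mulLeft, Equiv.coe_mulRight, inv_mul_cancel_left]
    rw [← hg]
    simp only [mul_assoc]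
  · have h1 : (fun x : G => if x = r * g then r * b * s else
        x * ((Equiv.mulLeft r⁻¹).trans (θ.trans (Equiv.mulRight s))) x) =
        (Equiv.mulLeft r).trans (Equiv.mulRight s) ∘ (fun x : G => if x = g then b else x * θ x) ∘
          (Equiv.mulLeft r⁻¹) := by
      funext x
      simp only [Function.comp_apply, Equiv.trans_apply, Equiv.coe_mulLeft, Equiv.coe_mulRight]
      by_cases hx : x = r * g
      · rw [if_pos hx, if_pos (by rw [hx, inv_mul_cancel_left])]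
      · rw [if_neg hx, if_neg (fun h => hx (by rw [← h, mul_inv_cancel_left]))]
        simp only [mul_assoc, mul_inv_cancel_left]
    have h2 : Function.Bijective ((Equiv.mulLeft r).trans (Equiv.mulRight s) ∘
        (fun x : G => if x = g then b else x * θ x) ∘ (Equiv.mulLeft r⁻¹)) :=
      (Equiv.bijective _).comp (hb.comp (Equiv.bijective _))
    rw [← h1] at h2
    exact h2

/-- the case of an abelian normal subgroup -/
theorem core {Q : Type u} [Group Q] (A : Subgroup Q) [hn : A.Normal]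
    (hA : ∀ a ∈ A, ∀ b ∈ A, a * b = b * a) (h : Q) (hg : ∀ x : Q, ∃ a ∈ A, ∃ k : ℤ, x = a * h ^ k) :
    ∀ c ∈ commutator Q, ∃ t ∈ A, c = t * h * t⁻¹ * h⁻¹ := by
  have hc : ∀ t ∈ A, ∀ g : Q, g * t * g⁻¹ ∈ A := fun t ht g => hn.conj_mem t ht g
  -- the commutator with `h`, additivity
  have hm : ∀ t ∈ A, ∀ g : Q, t * g * t⁻¹ * g⁻¹ ∈ A := fun t ht g => by
    have := A.mul_mem ht (hc t⁻¹ (A.inv_mem ht) g)
    simpa only [mul_assoc] using this
  have hadd : ∀ t ∈ A, ∀ u ∈ A, (t * u) * h * (t * u)⁻¹ * h⁻¹ =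
      (t * h * t⁻¹ * h⁻¹) * (u * h * u⁻¹ * h⁻¹) := by
    intro t ht u hu
    have e1 : (t * u) * h * (t * u)⁻¹ * h⁻¹ = t * ((u * h * u⁻¹ * h⁻¹) * (h * t⁻¹ * h⁻¹)) := by group
    have e2 := hA _ (hm u hu h) _ (hc t⁻¹ (A.inv_mem ht) h)
    rw [e1, e2]
    group
  let K : Subgroup Q :=
    { carrier := {c | ∃ t ∈ A, c = t * h * t⁻¹ * h⁻¹}
      mul_mem' := by
        rintro c d ⟨t, ht, rfl⟩ ⟨u, hu, rfl⟩
        exact ⟨t * u, A.mul_mem ht hu, (hadd t ht u hu).symm⟩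
      one_mem' := ⟨1, A.one_mem, by group⟩
      inv_mem' := by
        rintro c ⟨t, ht, rfl⟩
        refine ⟨t⁻¹, A.inv_mem ht, ?_⟩
        have := hadd t ht t⁻¹ (A.inv_mem ht)
        rw [mul_inv_cancel] at this
        have h1 : (1 : Q) * h * 1⁻¹ * h⁻¹ = 1 := by group
        rw [h1] at this
        exact inv_eq_of_mul_eq_one_right this.symm }
  have hK : ∀ c, c ∈ K ↔ ∃ t ∈ A, c = t * h * t⁻¹ * h⁻¹ := fun c => Iff.rfl
  -- all powers of `h`
  have hstep : ∀ (a : Q) (j : ℤ), a * h ^ (j + 1) * a⁻¹ * (h ^ (j + 1))⁻¹ =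
      (a * h ^ j * a⁻¹ * (h ^ j)⁻¹) *
        ((h ^ j * a * (h ^ j)⁻¹) * h * (h ^ j * a * (h ^ j)⁻¹)⁻¹ * h⁻¹) := by
    intro a j
    rw [zpow_add_one]
    have hcm : h * h ^ j = h ^ j * h := (Commute.refl h).zpow_right j
    have e : (h ^ j)⁻¹ * h * h ^ j = h := by rw [mul_assoc, hcm, inv_mul_cancel_left]
    calc a * (h ^ j * h) * a⁻¹ * (h ^ j * h)⁻¹
        = a * h ^ j * h * a⁻¹ * h⁻¹ * (h ^ j)⁻¹ := by group
      _ = a * h ^ j * a⁻¹ * (h ^ j)⁻¹ * (h ^ j * a * h * a⁻¹ * (h⁻¹ * (h ^ j)⁻¹)) := by group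
      _ = a * h ^ j * a⁻¹ * (h ^ j)⁻¹ * (h ^ j * a * ((h ^ j)⁻¹ * h * h ^ j) * a⁻¹ *
            ((h ^ j)⁻¹ * h⁻¹)) := by
          rw [e, ← mul_inv_rev, ← mul_inv_rev, hcm]
      _ = _ := by group
  have hpow : ∀ a ∈ A, ∀ j : ℤ, a * h ^ j * a⁻¹ * (h ^ j)⁻¹ ∈ K := by
    intro a ha j
    have hk : ∀ j : ℤ, (h ^ j * a * (h ^ j)⁻¹) * h * (h ^ j * a * (h ^ j)⁻¹)⁻¹ * h⁻¹ ∈ K :=
      fun j => ⟨_, hc a ha (h ^ j), rfl⟩
    induction j using Int.induction_on with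
    | zero => simp
    | succ i ih => rw [hstep]; exact K.mul_mem ih (hk _)
    | pred i ih =>
      have h1 := hstep a (-(i : ℤ) - 1)
      rw [sub_add_cancel] at h1
      rw [h1] at ih
      exact (K.mul_mem_cancel_right (hk _)).1 ih
  intro c hcc
  have hle : commutator Q ≤ K := by
    rw [commutator_def, Subgroup.commutator_le]
    intro x _ y _
    obtain ⟨a, ha, i, rfl⟩ := hg x
    obtain ⟨b, hb, j, rfl⟩ := hg y
    have hij : h ^ i * h ^ j = h ^ j * h ^ i := by rw [← zpow_add, ← zpow_add, add_comm]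
    have hij' : h ^ j * (h ^ i)⁻¹ = (h ^ i)⁻¹ * h ^ j := by
      rw [← zpow_neg, ← zpow_add, ← zpow_add, add_comm]
    have e1 : ⁅a * h ^ i, b * h ^ j⁆ =
        a * ((h ^ i * b * (h ^ i)⁻¹) * (h ^ j * a⁻¹ * (h ^ j)⁻¹)) * b⁻¹ := by
      rw [commutatorElement_def]
      calc a * h ^ i * (b * h ^ j) * (a * h ^ i)⁻¹ * (b * h ^ j)⁻¹
          = a * h ^ i * b * (h ^ j * (h ^ i)⁻¹) * a⁻¹ * (h ^ j)⁻¹ * b⁻¹ := by group
        _ = a * h ^ i * b * ((h ^ i)⁻¹ * h ^ j) * a⁻¹ * (h ^ j)⁻¹ * b⁻¹ := by rw [hij']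
        _ = _ := by group
    have e2 := hA _ (hc b hb (h ^ i)) _ (hc a⁻¹ (A.inv_mem ha) (h ^ j))
    have e3 : ⁅a * h ^ i, b * h ^ j⁆ =
        (a * h ^ j * a⁻¹ * (h ^ j)⁻¹) * (b * h ^ i * b⁻¹ * (h ^ i)⁻¹)⁻¹ := by
      rw [e1, e2]; group
    rw [e3]
    exact K.mul_mem (hpow a ha j) (K.inv_mem (hpow b hb i))
  exact hle hcc

theorem t_COM : Pool.Agent.Y382.NCH.S_COM.{u} := by
  intro G _ M _ h hg c hc
  let N : Subgroup G := ⁅M, M⁆
  have : N.Normal := Subgroup.commutator_normal M M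
  have hN : (commutator M).map M.subtype = N := Subgroup.map_subtype_commutator M
  let π : G →* G ⧸ N := QuotientGroup.mk' N
  have hπ : Function.Surjective π := QuotientGroup.mk'_surjective N
  have : (M.map π).Normal := Subgroup.Normal.map inferInstance π hπ
  have hab : ∀ a ∈ M.map π, ∀ b ∈ M.map π, a * b = b * a := by
    rintro _ ⟨a, ha, rfl⟩ _ ⟨b, hb, rfl⟩
    rw [← map_mul, ← map_mul]
    refine (QuotientGroup.eq (s := N)).2 ?_
    have h1 : ⁅b⁻¹, a⁻¹⁆ ∈ N := Subgroup.commutator_mem_commutator (M.inv_mem hb) (M.inv_mem ha)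
    rw [commutatorElement_def] at h1
    simpa only [mul_inv_rev, inv_inv, mul_assoc] using h1
  have hg' : ∀ x : G ⧸ N, ∃ a ∈ M.map π, ∃ k : ℤ, x = a * (π h) ^ k := by
    intro x
    obtain ⟨x, rfl⟩ := hπ x
    obtain ⟨m, hm, k, rfl⟩ := hg x
    exact ⟨π m, ⟨m, hm, rfl⟩, k, by rw [map_mul, map_zpow]⟩
  have hc' : π c ∈ commutator (G ⧸ N) := by
    have h1 : π c ∈ (commutator G).map π := ⟨c, hc, rfl⟩
    rw [commutator_def, Subgroup.map_commutator] at h1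
    rw [commutator_def]
    exact Subgroup.commutator_mono le_top le_top h1
  obtain ⟨_, ⟨t, ht, rfl⟩, htc⟩ := core (M.map π) hab (π h) hg' (π c) hc'
  have h2 : (t * h * t⁻¹ * h⁻¹)⁻¹ * c ∈ N := by
    have h3 : π (t * h * t⁻¹ * h⁻¹) = π c := by
      rw [htc]; simp only [map_mul, map_inv]
    exact (QuotientGroup.eq (s := N)).1 h3
  rw [← hN] at h2
  obtain ⟨d, hd, hdc⟩ := h2
  refine ⟨t, ht, d, hd, ?_⟩
  have h4 : (d : G) = (t * h * t⁻¹ * h⁻¹)⁻¹ * c := hdc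
  rw [h4, mul_inv_cancel_left]

end Pool.Agent.Y412.NCH
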